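import Mathlib
import Pool.Agent.Y68.AR.Inf

/-!
The largest regularity of an irredundant apolar scheme over an arbitrary field of characteristic zero.
The definitions are at the beginning of `Pool.Agent.Y68.AR.Main`.
-/

open Pool.Agent.Y68.AR

namespace Pool.Agent.Results.MP_254873_ag.EveryFieldCharZero

/-- Let `K` be a field of characteristic zero, `d ≥ 1`, and let `M K n d` be the supremum of the
regularities of the zero-dimensional schemes in the projective space of dimension `n - 1` over `K`
which are irredundant (over `K`) for some nonzero form of degree `d` in `n ≥ 1` variables over `K`.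
Then `M K 1 d = 0` and `M K n d` is infinite for all `n ≥ 3`.  For `n = 2` the value depends on the
field: it is at least `d`; it is equal to `d` if `K` is algebraically closed; and it is infinite if `K`
has irreducible polynomials of arbitrarily large degree, in particular for the field of rational
numbers. -/
theorem result (d : ℕ) (hd : 1 ≤ d) :
    (∀ (K : Type*) [Field K] [CharZero K],
      M K 1 d = 0 ∧ (∀ n : ℕ, 3 ≤ n → M K n d = ⊤) ∧ (d : ℕ∞) ≤ M K 2 d ∧
      (IsAlgClosed K → M K 2 d = d) ∧
      ((∀ N : ℕ, ∃ p : Polynomial K, Irreducible p ∧ N ≤ p.natDegree) → M K 2 d = ⊤)) ∧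
    M ℚ 2 d = ⊤ := by
  refine ⟨fun K _ _ => ⟨M_one d, fun n hn => ?_, le_M_two d, fun h => M_two d,
    fun h => M_two_top h d⟩, M_two_top rat_unbounded d⟩
  obtain ⟨k, rfl⟩ := Nat.exists_eq_add_of_le hn
  rw [add_comm]
  exact M_three k d hd

end Pool.Agent.Results.MP_254873_ag.EveryFieldCharZero
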